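import Pool.Agent.H77.EqdA
import Pool.Agent.H77.EqdB

namespace Pool.Agent.Results.MP_ee1cd8_co.Bounds

open H77.Eqd Set Complex ComplexConjugate

noncomputable def e : ℂ ≃ᵢ P := orthonormalBasisOneI.repr.toIsometryEquiv

theorem transfer {n : ℕ} (a b : Fin n → Set ℂ) (g : Fin n → ℂ ≃ᵢ ℂ)
    (ha : ∀ z : ℂ, (∃ i, z ∈ a i) ↔ 0 ≤ z.re ∧ z.re ≤ 1 ∧ 0 ≤ z.im ∧ z.im ≤ 1)
    (hb : ∀ z : ℂ, (∃ i, z ∈ b i) ↔ |z.re| ≤ z.im ∧ z.im ≤ 1)
    (da : Pairwise fun i j => Disjoint (a i) (a j)) (db : Pairwise fun i j => Disjoint (b i) (b j))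
    (hg : ∀ i, g i '' a i = b i) : Equi n S T := by
  refine ⟨fun i => e '' a i, fun i => e '' b i, fun i => e.symm.trans ((g i).trans e), ?_, ?_,
    fun i j h => (disjoint_image_iff e.injective).2 (da h),
    fun i j h => (disjoint_image_iff e.injective).2 (db h), fun i => ?_⟩
  · ext p
    obtain ⟨z, rfl⟩ := e.surjective p
    simp only [mem_iUnion, e.injective.mem_set_image]
    exact ha z
  · ext p
    obtain ⟨z, rfl⟩ := e.surjective p
    simp only [mem_iUnion, e.injective.mem_set_image]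
    exact hb z
  · simp only [← hg, image_image]; simp

def side : Set ℂ := {z | 0 ≤ z.re ∧ z.re ≤ 1 ∧ z.im = 0}
def K : Set ℂ := {z | z.re = z.im ∧ 1 - √2 / 2 ≤ z.im ∧ z.im ≤ 1}

theorem G_side : G '' side = K := by
  have := s2
  have := s_lo
  ext z
  constructor
  · rintro ⟨x, ⟨h1, h2, h3⟩, rfl⟩
    simp [K, G_def, ζ, h3]
    constructor <;> nlinarith
  · rintro ⟨h1, h2, h3⟩
    refine ⟨⟨(1 - z.im) * √2, 0⟩, ⟨by simp only; nlinarith, by simp only; nlinarith, rfl⟩, ?_⟩
    apply Complex.ext <;> simp [G_def, ζ, h1] <;> linear_combination (z.im - 1) / 2 * s2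

def b0 : Set ℂ := {z | (|z.re| ≤ z.im ∧ z.im ≤ 1) ∧ 0 ≤ z.re ∧ z ∉ J ∧ z ∉ K ∧ z ∉ Psi '' W}
def b1 : Set ℂ := {z | (|z.re| ≤ z.im ∧ z.im ≤ 1) ∧ z.re < 0 ∧ z ∉ J ∧ z ∉ W}

theorem four : Equi 4 S T := by
  have := s_lo
  have := s_hi
  refine transfer ![b0, {z | I * z ∈ b1}, side ∪ {z | I * z ∈ Rho '' W}, Psi '' J ∪ Psi '' W]
    ![b0, b1, K ∪ Psi '' W, J ∪ W] ![.refl ℂ, Rot.symm, G, Psi.symm] (fun z => ?_) (fun z => ?_)
    ?_ ?_ fun i => ?_
  · have h1 := W_in (z := I * z)
    have h2 := W'_in (z := z)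
    have h3 := W_iff z
    simp only [Fin.exists_fin_succ, b0, b1, side, J, K, abs_le] at h1 h2 h3 ⊢
    simp only [Matrix.cons_val_zero, Matrix.cons_val_succ, mem_setOf_eq, mem_union, I_mul_re,
      I_mul_im, IsEmpty.exists_iff, or_false] at h1 h2 h3 ⊢
    grind
  · have h1 := W_in (z := z)
    have h2 := W'_in (z := z)
    simp only [Fin.exists_fin_succ, b0, b1, J, K, abs_le] at h1 h2 ⊢
    simp only [Matrix.cons_val_zero, Matrix.cons_val_succ, mem_setOf_eq, mem_union,
      IsEmpty.exists_iff, or_false] at h1 h2 ⊢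
    grind
  · intro i j hij
    rw [disjoint_left]
    intro z
    have h1 := W_in (z := I * z)
    have h2 := W'_in (z := z)
    have h3 := W_iff z
    have h4 := W_dis (z := z)
    unfold b0 b1
    generalize Psi '' J = X at *
    generalize Psi '' W = Y at *
    generalize Rho '' W = Z at *
    fin_cases i <;> fin_cases j <;> simp [side, J, K, abs_le] at hij h1 ⊢ <;> grind
  · intro i j hij
    rw [disjoint_left]
    intro z
    have h1 := W_in (z := z)
    have h2 := W'_in (z := z)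
    unfold b0 b1
    generalize Psi '' W = Y at *
    fin_cases i <;> fin_cases j <;> simp [J, K, abs_le] at hij ⊢ <;> grind
  · have r : ∀ z, Rot.symm z = I * z := fun z => by
      rw [IsometryEquiv.symm_apply_eq, Rot_def]; linear_combination z * I_mul_I
    fin_cases i
    · exact image_id _
    · ext z
      obtain ⟨y, rfl⟩ := Rot.symm.surjective z
      simp [r]
    · simp only [Fin.reduceFinMk, Matrix.cons_val, image_union, G_side]
      congr 1
      ext z
      constructor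
      · rintro ⟨x, ⟨w, hw, h⟩, rfl⟩
        exact ⟨w, hw, by rw [Psi_def, h, ← r, IsometryEquiv.apply_symm_apply]⟩
      · rintro ⟨w, hw, rfl⟩
        exact ⟨Rot (Rho w), ⟨w, hw, by rw [← r, IsometryEquiv.symm_apply_apply]⟩, rfl⟩
    · simp [image_union, image_image]

theorem succ {n : ℕ} (h : Equi n S T) : Equi (n + 1) S T := by
  obtain ⟨a, b, g, h1, h2, h3, h4, h5⟩ := h
  have k : ∀ a : Fin n → Set P, Pairwise (fun i j => Disjoint (a i) (a j)) →
      Pairwise fun i j => Disjoint ((Fin.cons ∅ a : Fin (n + 1) → Set P) i)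
        ((Fin.cons ∅ a : Fin (n + 1) → Set P) j) := fun a ha i j hij => by
    induction i using Fin.cases
    · simp
    induction j using Fin.cases
    · simp
    exact ha fun e => hij (congrArg _ e)
  refine ⟨Fin.cons ∅ a, Fin.cons ∅ b, Fin.cons (.refl P) g, ?_, ?_, k a h3, k b h4, fun i => ?_⟩
  · rw [← h1]; ext; simp [Fin.exists_fin_succ]
  · rw [← h2]; ext; simp [Fin.exists_fin_succ]
  · induction i using Fin.cases
    · simp
    · exact h5 _

theorem result : Equi 4 S T ∧ ∀ n ≤ 2, ¬ Equi n S T := by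
  refine ⟨four, fun n hn h => not_two ?_⟩
  interval_cases n
  exacts [succ (succ h), succ h, h]

end Pool.Agent.Results.MP_ee1cd8_co.Bounds
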